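import Pool.Agent.Helper98.EX.Stmts3
import Pool.Agent.Helper98.EX.Basic

set_option autoImplicit false

namespace Pool.Agent.Helper98.EX

open Finset

/-- double sums over neighbours -/
theorem poi_double {N : ℕ} (g : Fin N → Fin N → ℝ) (h : ℕ → ℝ)
    (h1 : ∀ x y : Fin N, y.val = x.val + 1 → g x y = h y.val)
    (h0 : ∀ x y : Fin N, y.val ≠ x.val + 1 → g x y = 0) :
    ∑ x : Fin N, ∑ y : Fin N, g x y = ∑ b ∈ Finset.Ico 1 N, h b := by
  rw [Finset.sum_comm]
  have e1 : ∀ y : Fin N, ∑ x : Fin N, g x y = if 1 ≤ y.val then h y.val else 0 := by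
    intro y
    by_cases hy : 1 ≤ y.val
    · rw [if_pos hy]
      have hlt : y.val - 1 < N := lt_of_le_of_lt (Nat.sub_le _ _) y.isLt
      rw [Finset.sum_eq_single (⟨y.val - 1, hlt⟩ : Fin N)]
      · exact h1 _ _ (by simp only; omega)
      · intro x _ hx
        apply h0
        intro hxy
        apply hx
        apply Fin.ext
        simp only
        omega
      · intro hx
        exact absurd (Finset.mem_univ _) hx
    · rw [if_neg hy]
      exact Finset.sum_eq_zero fun x _ => h0 _ _ (by omega)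
  rw [Finset.sum_congr rfl fun y _ => e1 y]
  rw [← Finset.sum_range (fun b => if 1 ≤ b then h b else 0), ← Finset.sum_filter]
  apply Finset.sum_congr _ fun _ _ => rfl
  ext b
  simp only [Finset.mem_filter, Finset.mem_range, Finset.mem_Ico]
  omega

theorem poi_exch {N k : ℕ} (η : Conf N k) (x y : Fin N) (hxy : y.val = x.val + 1) :
    (exch η x y).1 = swp y.val η.1 := by
  funext i
  show η.1 (Equiv.swap x y i) = swp y.val η.1 i
  unfold swp
  by_cases h1 : i = y
  · subst h1
    rw [Equiv.swap_apply_right, if_pos rfl]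
    have : i.val - 1 = x.val := by omega
    rw [this, occ_fin]
  · by_cases h2 : i = x
    · subst h2
      rw [Equiv.swap_apply_left, if_neg (by omega), if_pos (by omega), occ_fin]
    · rw [Equiv.swap_apply_of_ne_of_ne h2 h1, if_neg, if_neg]
      · intro h
        apply h2
        apply Fin.ext
        omega
      · intro h
        exact h1 (Fin.ext h)

theorem poi_exch' {N k : ℕ} (η : Conf N k) (x y : Fin N) (hxy : x.val = y.val + 1) :
    (exch η x y).1 = swp x.val η.1 := by
  have h : exch η x y = exch η y x := by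
    apply Subtype.ext
    funext i
    show η.1 (Equiv.swap x y i) = η.1 (Equiv.swap y x i)
    rw [Equiv.swap_comm]
  rw [h]
  exact poi_exch η y x hxy

theorem poi_gen {N k : ℕ} (w : ℕ → ℝ) (G : Cfg N → ℝ) (η : Conf N k) :
    genC w (fun ζ : Conf N k => G ζ.1) η =
      ∑ x ∈ full N, (rE w x * (G (RmS (full N) x η.1) - G η.1) +
        lE w x * (G (LmS (full N) x η.1) - G η.1)) := by
  rw [Finset.sum_add_distrib]
  unfold full
  rw [← poi_double (fun x y => if y.val = x.val + 1 then
      (if η.1 x = true ∧ η.1 y = false then w x * (G (exch η x y).1 - G η.1) else 0) else 0)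
      (fun b => rE w b * (G (RmS (Ico 1 N) b η.1) - G η.1))]
  · rw [← poi_double (fun y x => if x.val = y.val + 1 then
      (if η.1 x = true ∧ η.1 y = false then (1 - w x) * (G (exch η x y).1 - G η.1) else 0) else 0)
      (fun b => lE w b * (G (LmS (Ico 1 N) b η.1) - G η.1))]
    · rw [Finset.sum_comm (f := fun y x => if x.val = y.val + 1 then
        (if η.1 x = true ∧ η.1 y = false then (1 - w x) * (G (exch η x y).1 - G η.1) else 0)
        else 0)]
      rw [← Finset.sum_add_distrib]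
      unfold genC
      refine Finset.sum_congr rfl fun x _ => ?_
      rw [← Finset.sum_add_distrib]
      refine Finset.sum_congr rfl fun y _ => ?_
      unfold jr
      by_cases ha : y.val = x.val + 1
      · have hb : ¬ x.val = y.val + 1 := by omega
        simp only [if_pos ha, if_neg hb, add_zero]
      · by_cases hb : x.val = y.val + 1
        · rw [if_neg ha, if_neg ha, if_pos hb, if_pos hb, zero_add]
        · rw [if_neg ha, if_neg ha, if_neg hb, if_neg hb, zero_mul, ite_self, zero_add]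
    · intro y x hxy
      simp only [if_pos hxy]
      have hmem : x.val ∈ Ico 1 N := Finset.mem_Ico.mpr ⟨by omega, x.isLt⟩
      have ho1 : occ η.1 (x.val - 1) = η.1 y := by
        have : x.val - 1 = y.val := by omega
        rw [this, occ_fin]
      unfold LmS lE
      rw [if_pos hmem]
      unfold Lm
      rw [ho1, occ_fin]
      by_cases hc : η.1 x = true ∧ η.1 y = false
      · rw [if_pos hc, if_pos ⟨by omega, x.isLt, hc.2, hc.1⟩, poi_exch' η x y hxy]
      · rw [if_neg hc, if_neg, sub_self, mul_zero]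
        rintro ⟨-, -, h1, h2⟩
        exact hc ⟨h2, h1⟩
    · intro y x hxy
      simp only [if_neg hxy]
  · intro x y hxy
    simp only [if_pos hxy]
    have hmem : y.val ∈ Ico 1 N := Finset.mem_Ico.mpr ⟨by omega, y.isLt⟩
    have hv : y.val - 1 = x.val := by omega
    unfold RmS rE
    rw [if_pos hmem]
    unfold Rm
    rw [hv, occ_fin, occ_fin]
    by_cases hc : η.1 x = true ∧ η.1 y = false
    · rw [if_pos hc, if_pos ⟨by omega, y.isLt, hc.1, hc.2⟩, poi_exch η x y hxy]
    · rw [if_neg hc, if_neg, sub_self, mul_zero]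
      rintro ⟨-, -, h1, h2⟩
      exact hc ⟨h1, h2⟩
  · intro x y hxy
    simp only [if_neg hxy]

theorem poi_genM {N k : ℕ} (w : ℕ → ℝ) (F : Conf N k → ℝ) (η : Conf N k) :
    ∑ ξ, genM w N k η ξ * F ξ = genC w F η := by
  unfold genM genC
  simp only [Finset.sum_mul]
  rw [Finset.sum_comm]
  refine Finset.sum_congr rfl fun x _ => ?_
  rw [Finset.sum_comm]
  refine Finset.sum_congr rfl fun y _ => ?_
  by_cases hc : η.1 x = true ∧ η.1 y = false
  · simp only [if_pos hc, mul_assoc, sub_mul, ← Finset.mul_sum, Finset.sum_sub_distrib, ite_mul,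
      one_mul, zero_mul, Finset.sum_ite_eq, Finset.mem_univ, if_true]
  · simp only [if_neg hc, zero_mul, Finset.sum_const_zero]

theorem poi_mulVec {N k : ℕ} (w : ℕ → ℝ) (G : Cfg N → ℝ) (η : Conf N k) :
    ((1 + ((2 * (N : ℝ))⁻¹) • genM w N k).mulVec (fun ξ : Conf N k => G ξ.1)) η =
      stp (rE w) (lE w) (full N) G η.1 := by
  rw [Matrix.add_mulVec, Matrix.one_mulVec, Matrix.smul_mulVec]
  show G η.1 + (2 * (N : ℝ))⁻¹ * (∑ ξ, genM w N k η ξ * G ξ.1) = _
  rw [poi_genM w (fun ξ : Conf N k => G ξ.1) η, poi_gen]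
  unfold stp
  rw [div_eq_mul_inv, mul_comm (2 * (N : ℝ))⁻¹]

theorem poi_pow {N k : ℕ} (w : ℕ → ℝ) (f : Cfg N → ℝ) (m : ℕ) (η : Conf N k) :
    (((1 + ((2 * (N : ℝ))⁻¹) • genM w N k) ^ m).mulVec (fun ξ : Conf N k => f ξ.1)) η =
      ev (rE w) (lE w) (fun _ => full N) m f η.1 := by
  induction m generalizing η with
  | zero => rw [pow_zero, Matrix.one_mulVec]; rfl
  | succ m ih =>
    rw [pow_succ', ← Matrix.mulVec_mulVec]
    have e : ((1 + ((2 * (N : ℝ))⁻¹) • genM w N k) ^ m).mulVec (fun ξ : Conf N k => f ξ.1) =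
        fun ξ : Conf N k => ev (rE w) (lE w) (fun _ => full N) m f ξ.1 := funext fun ξ => ih ξ
    rw [e, poi_mulVec]
    rfl

set_option backward.isDefEq.respectTransparency false in
theorem poi_hasSum {ι : Type} [Fintype ι] [DecidableEq ι] (A : Matrix ι ι ℝ) :
    HasSum (fun m : ℕ => ((m.factorial : ℝ)⁻¹) • A ^ m) (NormedSpace.exp A) :=
  open scoped Matrix.Norms.Operator in NormedSpace.exp_series_hasSum_exp' (𝕂 := ℝ) A

theorem poi_exp {N k : ℕ} (w : ℕ → ℝ) (t : ℝ) (hN : 1 ≤ N) :
    Pt w N k t = Real.exp (-(2 * N * t)) •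
      NormedSpace.exp ((2 * N * t) • (1 + ((2 * (N : ℝ))⁻¹) • genM w N k)) := by
  have hN0 : (2 * (N : ℝ)) ≠ 0 := by positivity
  have e : t • genM w N k = (-(2 * N * t)) • (1 : Matrix (Conf N k) (Conf N k) ℝ) +
      (2 * N * t) • (1 + ((2 * (N : ℝ))⁻¹) • genM w N k) := by
    rw [smul_add, smul_smul, neg_smul]
    have : 2 * (N : ℝ) * t * (2 * (N : ℝ))⁻¹ = t := by field_simp
    rw [this]
    abel
  unfold Pt
  rw [e, Matrix.exp_add_of_commute]
  · have h1 : NormedSpace.exp ((-(2 * N * t)) • (1 : Matrix (Conf N k) (Conf N k) ℝ)) =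
        Real.exp (-(2 * N * t)) • (1 : Matrix (Conf N k) (Conf N k) ℝ) := by
      rw [Matrix.smul_one_eq_diagonal, Matrix.exp_diagonal, Matrix.smul_one_eq_diagonal]
      congr 1
      funext i
      rw [Real.exp_eq_exp_ℝ]
      exact Pi.coe_exp _ _
    rw [h1, Matrix.smul_mul, one_mul]
  · exact (Commute.one_left _).smul_left _

theorem st_POI : ST_POI := by
  intro N k w t f η hN ht
  have h := poi_hasSum ((2 * N * t) • (1 + ((2 * (N : ℝ))⁻¹) • genM w N k))
  set K := 1 + ((2 * (N : ℝ))⁻¹) • genM w N k with hK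
  have h2 : HasSum (fun m : ℕ => ((((m.factorial : ℝ)⁻¹) • ((2 * N * t) • K) ^ m).mulVec
      (fun ξ : Conf N k => f ξ.1)) η)
      ((NormedSpace.exp ((2 * N * t) • K)).mulVec (fun ξ : Conf N k => f ξ.1) η) := by
    unfold Matrix.mulVec dotProduct
    apply hasSum_sum
    intro ξ _
    apply HasSum.mul_right
    exact Pi.hasSum.mp (Pi.hasSum.mp h η) ξ
  have h3 := h2.mul_left (Real.exp (-(2 * N * t)))
  have e1 : (∑ ξ, Pt w N k t η ξ * f ξ.1) = Real.exp (-(2 * N * t)) *
      ((NormedSpace.exp ((2 * N * t) • K)).mulVec (fun ξ : Conf N k => f ξ.1) η) := by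
    rw [poi_exp w t hN, ← hK]
    unfold Matrix.mulVec dotProduct
    rw [Finset.mul_sum]
    refine Finset.sum_congr rfl fun ξ _ => ?_
    rw [Matrix.smul_apply, smul_eq_mul, mul_assoc]
  rw [e1]
  refine h3.congr_fun ?_
  intro m
  have e2 : (((m.factorial : ℝ)⁻¹) • ((2 * N * t) • K) ^ m).mulVec (fun ξ : Conf N k => f ξ.1) η =
      (m.factorial : ℝ)⁻¹ * ((2 * N * t) ^ m *
        ev (rE w) (lE w) (fun _ => full N) m f η.1) := by
    rw [smul_pow, Matrix.smul_mulVec, Matrix.smul_mulVec, Pi.smul_apply, Pi.smul_apply,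
      smul_eq_mul, smul_eq_mul, poi_pow]
  rw [e2]
  unfold poi
  rw [div_eq_mul_inv]
  ring
end Pool.Agent.Helper98.EX
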