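import Pool.Agent.Helper98.EX.Stmts3
import Pool.Agent.Helper98.EX.Basic

set_option autoImplicit false

namespace Pool.Agent.Helper98.EX

open Finset

theorem tvlow_poi (lam : ℝ) : HasSum (poi lam) 1 := by
  have h : HasSum (fun n : ℕ => ((n.factorial : ℝ)⁻¹) • lam ^ n) (NormedSpace.exp lam) :=
    NormedSpace.exp_series_hasSum_exp' (𝕂 := ℝ) lam
  have h2 := h.mul_left (Real.exp (-lam))
  have e : Real.exp (-lam) * NormedSpace.exp lam = 1 := by
    rw [← Real.exp_eq_exp_ℝ, ← Real.exp_add, neg_add_cancel, Real.exp_zero]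
  rw [e] at h2
  refine h2.congr_fun ?_
  intro m
  unfold poi
  rw [smul_eq_mul, div_eq_mul_inv]
  ring

theorem tvlow_ext {N k : ℕ} (π : Conf N k → ℝ) (g : Cfg N → ℝ) :
    ∑ η, extC π η * g η = ∑ ξ : Conf N k, π ξ * g ξ.1 := by
  have h1 : ∑ η, extC π η * g η = ∑ η ∈ Finset.univ.filter
      (fun η : Cfg N => (Finset.univ.filter (fun i => η i = true)).card = k),
      extC π η * g η := by
    symm
    apply Finset.sum_filter_of_ne
    intro η _ hne
    by_contra hc
    apply hne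
    unfold extC
    rw [dif_neg hc, zero_mul]
  rw [h1, Finset.sum_subtype (p := fun η : Cfg N =>
    (Finset.univ.filter (fun i => η i = true)).card = k) _ (fun η => by simp)]
  refine Finset.sum_congr rfl fun ξ _ => ?_
  unfold extC
  rw [dif_pos ξ.2]

theorem st_TVLOW (h1 : ST_POI) : ST_TVLOW := by
  intro N k w π t ψ A hN hk hw hπ ht hψ
  have hA := h1 N k w t (ind A) ψ hN ht
  have h1' := h1 N k w t (fun _ => (1 : ℝ)) ψ hN ht
  have htot : ∑ ξ, Pt w N k t ψ ξ = 1 := by
    have e : (fun m : ℕ => poi (2 * N * t) m *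
        ev (rE w) (lE w) (fun _ => full N) m (fun _ => (1 : ℝ)) ψ.1) = poi (2 * N * t) := by
      funext m
      rw [ev_const, mul_one]
    rw [e] at h1'
    have := h1'.unique (tvlow_poi (2 * N * t))
    simpa using this
  have hpr : ∑' m : ℕ, poi (2 * N * t) m * pr (rE w) (lE w) (fun _ => full N) m A (bot N k) =
      ∑ ξ, Pt w N k t ψ ξ * ind A ξ.1 := by
    rw [← hψ]
    exact hA.tsum_eq
  rw [hpr, tvlow_ext]
  unfold tv
  have hsum : ∑ ξ : Conf N k, (Pt w N k t ψ ξ - π ξ) = 0 := by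
    rw [Finset.sum_sub_distrib, htot, hπ.total, sub_self]
  have key : ∀ ξ : Conf N k, π ξ * ind A ξ.1 - Pt w N k t ψ ξ * ind A ξ.1 ≤
      1 / 2 * |Pt w N k t ψ ξ - π ξ| - 1 / 2 * (Pt w N k t ψ ξ - π ξ) := by
    intro ξ
    by_cases hm : ξ.1 ∈ A
    · rw [ind_of_mem hm]
      have := neg_abs_le (Pt w N k t ψ ξ - π ξ)
      linarith
    · rw [ind_of_not_mem hm]
      have := le_abs_self (Pt w N k t ψ ξ - π ξ)
      linarith
  have h := Finset.sum_le_sum fun ξ (_ : ξ ∈ (Finset.univ : Finset (Conf N k))) => key ξ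
  rw [Finset.sum_sub_distrib, Finset.sum_sub_distrib, ← Finset.mul_sum, ← Finset.mul_sum, hsum]
    at h
  linarith

end Pool.Agent.Helper98.EX
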